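import Pool.Agent.Lib.MP_b0e20b_ag_N.Fin
import Pool.Agent.Lib.MP_b0e20b_ag_N.Bin

/-!
The number `N` of complex critical points for generic `T` in `H`, for all formats
(n 0, ..., n (d-1)), `d ≥ 2`, all `n i ≥ 1`: it is `num D n` with the numbers `D a` of
MacMahon's recursion. For binary tensors it is `!d + ∑ i < d, d! / i!`. For `d ≥ 3` every odd
number `k ≤ N + 2 - E` is the number of real critical points of some real `T` in `H` with
exactly `N` complex critical points, where `E` is the sum of `D a` over all `a ≤ n`.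
-/

set_option autoImplicit false

namespace Pool.Agent.Results.MP_b0e20b_ag.GenericNumber

/-- Indices of the entries of a tensor of size (n 0 + 1) × ... × (n (d-1) + 1). -/
abbrev Ix {d : ℕ} (n : Fin d → ℕ) : Type := ∀ i, Fin (n i + 1)

/-- Complex tensors of size (n 0 + 1) × ... × (n (d-1) + 1). -/
abbrev Tensor {d : ℕ} (n : Fin d → ℕ) : Type := Ix n → ℂ

/-- The Frobenius bilinear form. -/
def form {d : ℕ} {n : Fin d → ℕ} (S T : Tensor n) : ℂ := ∑ j, S j * T j

/-- The sum of the entries; the hyperplane `H` is `total T = 1`. -/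
def total {d : ℕ} {n : Fin d → ℕ} (T : Tensor n) : ℂ := ∑ j, T j

/-- The tensor `v 0 ⊗ ... ⊗ v (d-1)`. -/
def rk1 {d : ℕ} {n : Fin d → ℕ} (v : ∀ i, Fin (n i + 1) → ℂ) : Tensor n := fun j => ∏ i, v i (j i)

/-- The tangent vector `∑ i, v 0 ⊗ ... ⊗ v' i ⊗ ... ⊗ v (d-1)` (the `i`-th factor `v i` is replaced
by `v' i`). -/
def tang {d : ℕ} {n : Fin d → ℕ} (v v' : ∀ i, Fin (n i + 1) → ℂ) : Tensor n :=
  ∑ i, rk1 (Function.update v i (v' i))

/-- `X = rk1 v` is a point of `𝒮 ∩ H` and `T - X` is orthogonal to the tangent space of `𝒮 ∩ H` at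
`X`, which consists of the tensors `tang v v'` whose entries add up to zero. (All points of `𝒮 ∩ H`
are smooth, as they are nonzero.) -/
def IsCritical {d : ℕ} {n : Fin d → ℕ} (T X : Tensor n) : Prop :=
  total X = 1 ∧ ∃ v : ∀ i, Fin (n i + 1) → ℂ, X = rk1 v ∧
    ∀ v' : ∀ i, Fin (n i + 1) → ℂ, total (tang v v') = 0 → form (T - X) (tang v v') = 0

/-- All entries are real. -/
def IsReal {d : ℕ} {n : Fin d → ℕ} (T : Tensor n) : Prop := ∀ j, (T j).im = 0

/-- The set of (complex) critical points. -/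
def crit {d : ℕ} {n : Fin d → ℕ} (T : Tensor n) : Set (Tensor n) := {X | IsCritical T X}

/-- The set of real critical points. -/
def realCrit {d : ℕ} {n : Fin d → ℕ} (T : Tensor n) : Set (Tensor n) :=
  {X | IsCritical T X ∧ IsReal X}

/-- `N` is the number of critical points for generic `T` in `H`: it is the number of critical points
for every `T` in a nonempty Zariski open subset `{P ≠ 0}` of `H`. -/
def IsGenericNumber {d : ℕ} (n : Fin d → ℕ) (N : ℕ) : Prop :=
  ∃ P : MvPolynomial (Ix n) ℂ,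
    (∃ T : Tensor n, total T = 1 ∧ MvPolynomial.eval T P ≠ 0) ∧
    ∀ T : Tensor n, total T = 1 → MvPolynomial.eval T P ≠ 0 → (crit T).encard = N

/-- The indicator function of a set of factors. -/
def ind {d : ℕ} (J : Finset (Fin d)) : Fin d → ℕ := fun i => if i ∈ J then 1 else 0

/-- MacMahon's recursion, which determines `D`: `D 0 = 1`, and for `a ≠ 0` the number `D a` is the
sum of (card J - 1) * D (a - ind J) over the sets `J` of at least two factors `i` with
`1 ≤ a i`. -/
def IsMacMahon {d : ℕ} (D : (Fin d → ℕ) → ℕ) : Prop :=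
  D 0 = 1 ∧ ∀ a, a ≠ 0 → D a = ∑ J ∈ Finset.univ.filter
    (fun J : Finset (Fin d) => (∀ i ∈ J, 1 ≤ a i) ∧ 2 ≤ J.card), (J.card - 1) * D (a - ind J)

/-- The sum of `D a` over all `a ≤ n`. -/
def boxSum {d : ℕ} (D : (Fin d → ℕ) → ℕ) (n : Fin d → ℕ) : ℕ :=
  ∑ a ∈ Fintype.piFinset (fun i => Finset.range (n i + 1)), D a

/-- `D n` plus the sum of `card J * boxSum D (n - ind J)` over the nonempty sets `J` of factors `i`
with `1 ≤ n i`. -/
def num {d : ℕ} (D : (Fin d → ℕ) → ℕ) (n : Fin d → ℕ) : ℕ :=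
  D n + ∑ J ∈ Finset.univ.filter
    (fun J : Finset (Fin d) => (∀ i ∈ J, 1 ≤ n i) ∧ J ≠ ∅), J.card * boxSum D (n - ind J)

/-- Let `d ≥ 2`. There is `D` with MacMahon's recursion such that for all formats `n` with all
`n i ≥ 1` (i) the generic number of complex critical points is `num D n`, and (ii) if `d ≥ 3`, then
for every odd `k ≤ num D n + 2 - boxSum D n` there is a real `T` in `H` with exactly `num D n`
complex critical points, exactly `k` of them real; moreover (iii) for the binary format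
(1, ..., 1) the number `num D n` is the number of derangements of `d` points plus the sum of
`d! / i!` over `i < d`. -/
theorem result {d : ℕ} (hd : 2 ≤ d) : ∃ D : (Fin d → ℕ) → ℕ, IsMacMahon D ∧
    (∀ n : Fin d → ℕ, (∀ i, 1 ≤ n i) → IsGenericNumber n (num D n) ∧
      (3 ≤ d → ∀ k : ℕ, Odd k → k + boxSum D n ≤ num D n + 2 →
        ∃ T : Tensor n, total T = 1 ∧ IsReal T ∧ (crit T).encard = (num D n : ℕ) ∧
          (realCrit T).encard = k)) ∧
    num D (fun _ => 1) =
      numDerangements d + ∑ i ∈ Finset.range d, d.factorial / i.factorial :=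
  ⟨Pool.Agent.MPb0eF.Dc, ⟨(Pool.Agent.MPb0eC.mac_Dc d).zero, (Pool.Agent.MPb0eC.mac_Dc d).step⟩,
    fun n hn => ⟨Pool.Agent.MPb0eF.number_N (by omega) n hn,
      fun h3 k hk1 hk2 => Pool.Agent.MPb0eF.number_K' h3 n hn k hk1 hk2⟩,
    Pool.Agent.MPb0eC.Mac.nn_one (Pool.Agent.MPb0eC.mac_Dc d)⟩

end Pool.Agent.Results.MP_b0e20b_ag.GenericNumber
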