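import Pool.Agent.Lib.MP_b0e20b_ag.Final

/-!
Complete answer to the question for tensors of order two (probability matrices) of every format:
the generic number of complex critical points on the rank-one tensors in the hyperplane `H` of
tensors with entries adding up to one is `4 min(n₁, n₂) + 1`, and the attained numbers of real
critical points are exactly the odd numbers up to it.
-/

namespace Pool.Agent.Results.MP_b0e20b_ag.MatrixCase

open Matrix

/-- Complex tensors of order two and format `(n₁ + 1) × (n₂ + 1)`. -/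
abbrev Tensor (n₁ n₂ : ℕ) : Type := Matrix (Fin (n₁ + 1)) (Fin (n₂ + 1)) ℂ

/-- The Frobenius bilinear form. -/
def form {n₁ n₂ : ℕ} (S T : Tensor n₁ n₂) : ℂ := ∑ i, ∑ j, S i j * T i j

/-- The sum of the entries; the hyperplane `H` is `total T = 1`. -/
def total {n₁ n₂ : ℕ} (T : Tensor n₁ n₂) : ℂ := ∑ i, ∑ j, T i j

/-- `X = v ⊗ w` is a point of `𝒮 ∩ H` and `T - X` is orthogonal to the tangent space of `𝒮 ∩ H`
at `X`, which consists of the tensors `v' ⊗ w + v ⊗ w'` whose entries add up to zero. (All points of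
`𝒮 ∩ H` are smooth, as they are nonzero.) -/
def IsCritical {n₁ n₂ : ℕ} (T X : Tensor n₁ n₂) : Prop :=
  total X = 1 ∧ ∃ (v : Fin (n₁ + 1) → ℂ) (w : Fin (n₂ + 1) → ℂ), X = vecMulVec v w ∧
    ∀ (v' : Fin (n₁ + 1) → ℂ) (w' : Fin (n₂ + 1) → ℂ),
      total (vecMulVec v' w + vecMulVec v w') = 0 →
        form (T - X) (vecMulVec v' w + vecMulVec v w') = 0

/-- All entries are real. -/
def IsReal {n₁ n₂ : ℕ} (T : Tensor n₁ n₂) : Prop := ∀ i j, (T i j).im = 0

/-- The set of (complex) critical points. -/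
def crit {n₁ n₂ : ℕ} (T : Tensor n₁ n₂) : Set (Tensor n₁ n₂) := {X | IsCritical T X}

/-- The set of real critical points. -/
def realCrit {n₁ n₂ : ℕ} (T : Tensor n₁ n₂) : Set (Tensor n₁ n₂) := {X | IsCritical T X ∧ IsReal X}

/-- `N` is the number of critical points for generic `T` in `H`: it is the number of critical points
for every `T` in a nonempty Zariski open subset `{P ≠ 0}` of `H`. -/
def IsGenericNumber (n₁ n₂ N : ℕ) : Prop :=
  ∃ P : MvPolynomial (Fin (n₁ + 1) × Fin (n₂ + 1)) ℂ,
    (∃ T : Tensor n₁ n₂, total T = 1 ∧ MvPolynomial.eval (fun p => T p.1 p.2) P ≠ 0) ∧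
    ∀ T : Tensor n₁ n₂, total T = 1 → MvPolynomial.eval (fun p => T p.1 p.2) P ≠ 0 →
      (crit T).encard = N

/-- The generic number of complex critical points is `N = 4 min(n₁, n₂) + 1`, and the numbers of
real critical points of real tensors in `H` with exactly `N` complex critical points are exactly the
odd numbers `k ≤ N`. -/
theorem result (n₁ n₂ : ℕ) :
    IsGenericNumber n₁ n₂ (4 * min n₁ n₂ + 1) ∧
    ∀ k : ℕ, (∃ T : Tensor n₁ n₂, IsReal T ∧ total T = 1 ∧
        (crit T).encard = ((4 * min n₁ n₂ + 1 : ℕ) : ℕ∞) ∧ (realCrit T).encard = k) ↔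
      (Odd k ∧ k ≤ 4 * min n₁ n₂ + 1) :=
  Pool.Agent.MP_b0e20b_ag.main n₁ n₂

end Pool.Agent.Results.MP_b0e20b_ag.MatrixCase
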