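import Pool.Agent.Lib.MP_b0e20b_ag_K.KFin

/-!
All formats `(n 0, n 1, n 2)` with three factors, `n i ≥ 1`: all critical points can be real, and
the attained numbers of real critical points are exactly the odd numbers up to the generic number
`N` of complex critical points.
-/

set_option autoImplicit false

namespace Pool.Agent.Results.MP_b0e20b_ag.OrderThree

/-- Indices of the entries of a tensor of size `(n 0 + 1) × ... × (n (d-1) + 1)`. -/
abbrev Ix {d : ℕ} (n : Fin d → ℕ) : Type := ∀ i, Fin (n i + 1)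

/-- Complex tensors of size `(n 0 + 1) × ... × (n (d-1) + 1)`. -/
abbrev Tensor {d : ℕ} (n : Fin d → ℕ) : Type := Ix n → ℂ

/-- The Frobenius bilinear form. -/
def form {d : ℕ} {n : Fin d → ℕ} (S T : Tensor n) : ℂ := ∑ j, S j * T j

/-- The sum of the entries; the hyperplane `H` is `total T = 1`. -/
def total {d : ℕ} {n : Fin d → ℕ} (T : Tensor n) : ℂ := ∑ j, T j

/-- The tensor `v 0 ⊗ ... ⊗ v (d-1)`. -/
def rk1 {d : ℕ} {n : Fin d → ℕ} (v : ∀ i, Fin (n i + 1) → ℂ) : Tensor n := fun j => ∏ i, v i (j i)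

/-- The tangent vector `∑ i, v 0 ⊗ ... ⊗ v' i ⊗ ... ⊗ v (d-1)` (the `i`-th factor `v i` is replaced
by `v' i`). -/
def tang {d : ℕ} {n : Fin d → ℕ} (v v' : ∀ i, Fin (n i + 1) → ℂ) : Tensor n :=
  ∑ i, rk1 (Function.update v i (v' i))

/-- `X = rk1 v` is a point of `𝒮 ∩ H` and `T - X` is orthogonal to the tangent space of `𝒮 ∩ H` at
`X`, which consists of the tensors `tang v v'` whose entries add up to zero. (All points of `𝒮 ∩ H`
are smooth, as they are nonzero.) -/
def IsCritical {d : ℕ} {n : Fin d → ℕ} (T X : Tensor n) : Prop :=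
  total X = 1 ∧ ∃ v : ∀ i, Fin (n i + 1) → ℂ, X = rk1 v ∧
    ∀ v' : ∀ i, Fin (n i + 1) → ℂ, total (tang v v') = 0 → form (T - X) (tang v v') = 0

/-- All entries are real. -/
def IsReal {d : ℕ} {n : Fin d → ℕ} (T : Tensor n) : Prop := ∀ j, (T j).im = 0

/-- The set of (complex) critical points. -/
def crit {d : ℕ} {n : Fin d → ℕ} (T : Tensor n) : Set (Tensor n) := {X | IsCritical T X}

/-- The set of real critical points. -/
def realCrit {d : ℕ} {n : Fin d → ℕ} (T : Tensor n) : Set (Tensor n) :=
  {X | IsCritical T X ∧ IsReal X}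

/-- `N` is the number of critical points for generic `T` in `H`: it is the number of critical points
for every `T` in a nonempty Zariski open subset `{P ≠ 0}` of `H`. -/
def IsGenericNumber {d : ℕ} (n : Fin d → ℕ) (N : ℕ) : Prop :=
  ∃ P : MvPolynomial (Ix n) ℂ,
    (∃ T : Tensor n, total T = 1 ∧ MvPolynomial.eval T P ≠ 0) ∧
    ∀ T : Tensor n, total T = 1 → MvPolynomial.eval T P ≠ 0 → (crit T).encard = N

/-- For three factors there is an odd number `N`, the generic number of complex critical points,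
such that the numbers of real critical points of real tensors in `H` with exactly `N` complex
critical points are exactly the odd numbers `k ≤ N`. -/
theorem result (n : Fin 3 → ℕ) (hn : ∀ i, 1 ≤ n i) :
    ∃ N : ℕ, IsGenericNumber n N ∧ Odd N ∧
      ∀ k : ℕ, (∃ T : Tensor n, total T = 1 ∧ IsReal T ∧ (crit T).encard = N ∧
        (realCrit T).encard = k) ↔ Odd k ∧ k ≤ N :=
  Pool.Agent.MPb0eK.mainK n hn

end Pool.Agent.Results.MP_b0e20b_ag.OrderThree
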